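import Pool.Agent.H38.AB.Targets

/-!
# MP_7ecdd4_nt, board aab, row GEM: weighted energy modulo `g`
-/

set_option autoImplicit false

open Pool.Agent.H38.RB Pool.Agent.H38.PS Pool.Agent.H82.RD Pool.Agent.H38.AB

namespace Pool.Agent.H46.AB

/-- the energy as a sum of squares -/
theorem sum_sq {α β : Type} [Fintype β] [DecidableEq β] (B : Finset α) (f : α → β) :
    ∑ z, (((B.filter fun x => f x = z).card : ℝ)) ^ 2 =
      (((B ×ˢ B).filter fun t => f t.1 = f t.2).card : ℝ) := by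
  rw [Finset.card_filter, Finset.sum_product]
  push_cast
  have h1 : ∀ x ∈ B, ∑ y ∈ B, (if f x = f y then (1 : ℝ) else 0) =
      ((B.filter fun y => f y = f x).card : ℝ) := by
    intro x _
    rw [Finset.card_filter]
    push_cast
    refine Finset.sum_congr rfl fun y _ => ?_
    simp only [eq_comm]
  rw [Finset.sum_congr rfl h1, ← Finset.sum_fiberwise B f]
  refine Finset.sum_congr rfl fun z _ => ?_
  rw [Finset.sum_congr rfl (g := fun _ => ((B.filter fun y => f y = z).card : ℝ)) (fun x hx => by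
    rw [(Finset.mem_filter.1 hx).2])]
  rw [Finset.sum_const, nsmul_eq_mul, pow_two]

/-- the pattern of a number -/
theorem exists_pattern (X : ℝ) (Ω V g : ℕ) (n : ℕ) (hn : n ∈ Nf X Ω V)
    (hg : n.Coprime g) : ∃ k : ℕ, k ≤ Ω ∧ ∃ v s p : Fin k → ℕ,
      (∀ j, 1 ≤ v j ∧ v j ≤ V ∧ 1 ≤ s j ∧ s j ≤ Nat.log 2 ⌊X⌋₊ ∧ p j ∈ Dy g (s j)) ∧
      n = ∏ j, p j ^ v j ∧ 2 ^ (∑ j, s j) ≤ pd n.primeFactors := by
  classical
  obtain ⟨h0, h1, h2, h3⟩ := Finset.mem_filter.1 hn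
  have hn0 : n ≠ 0 := by
    have := (Finset.mem_Icc.1 h0).1
    omega
  let e : Fin n.primeFactors.card ≃ n.primeFactors := n.primeFactors.equivFin.symm
  have hp : ∀ j, (e j : ℕ).Prime := fun j => Nat.prime_of_mem_primeFactors (e j).2
  have hd : ∀ j, (e j : ℕ) ∣ n := fun j => Nat.dvd_of_mem_primeFactors (e j).2
  have hprod : ∀ F : ℕ → ℕ, ∏ j, F (e j) = ∏ q ∈ n.primeFactors, F q := by
    intro F
    rw [Equiv.prod_comp e (fun x : n.primeFactors => F x), Finset.prod_coe_sort]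
  refine ⟨n.primeFactors.card, h2, fun j => n.factorization (e j), fun j => Nat.log 2 (e j),
    fun j => e j, fun j => ⟨?_, h3 _, ?_, ?_, ?_⟩, ?_, ?_⟩
  · exact (hp j).factorization_pos_of_dvd hn0 (hd j)
  · exact Nat.log_pos one_lt_two (hp j).two_le
  · refine Nat.log_mono_right ?_
    refine Nat.le_floor ?_
    refine le_trans ?_ h1
    exact_mod_cast Finset.single_le_prod' (f := fun q : ℕ => q) (s := n.primeFactors)
      (fun q hq => (Nat.prime_of_mem_primeFactors hq).one_lt.le) (e j).2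
  · refine Finset.mem_filter.2 ⟨Finset.mem_Ico.2 ⟨?_, ?_⟩, hp j, ?_⟩
    · exact Nat.pow_log_le_self 2 (hp j).ne_zero
    · exact Nat.lt_pow_succ_log_self one_lt_two _
    · exact Nat.Coprime.coprime_dvd_left (hd j) hg
  · rw [hprod (fun q => q ^ n.factorization q)]
    exact (Nat.prod_factorization_pow_eq_self hn0).symm
  · rw [← Finset.prod_pow_eq_pow_sum]
    show _ ≤ ∏ q ∈ n.primeFactors, q
    rw [← hprod (fun q => q)]
    exact Finset.prod_le_prod' fun j _ => Nat.pow_log_le_self 2 (hp j).ne_zero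

/-- the patterns -/
abbrev Pt (Ω V l : ℕ) : Type :=
  Σ k : Fin (Ω + 1), (Fin k → Fin (V + 1)) × (Fin k → Fin (l + 1))

theorem card_Pt (Ω V l : ℕ) : (Fintype.card (Pt Ω V l) : ℝ) ≤
    (Ω + 1) * (((V : ℝ) + 1) * (l + 1)) ^ Ω := by
  rw [Fintype.card_sigma]
  push_cast
  have h1 : ∀ k ∈ (Finset.univ : Finset (Fin (Ω + 1))),
      (Fintype.card ((Fin k → Fin (V + 1)) × (Fin k → Fin (l + 1))) : ℝ) ≤
        (((V : ℝ) + 1) * (l + 1)) ^ Ω := by
    intro k _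
    rw [Fintype.card_prod, Fintype.card_fun, Fintype.card_fun, Fintype.card_fin,
      Fintype.card_fin, Fintype.card_fin]
    push_cast
    rw [← mul_pow]
    refine pow_le_pow_right₀ ?_ (Nat.lt_succ_iff.1 k.2)
    have : (0 : ℝ) ≤ V := Nat.cast_nonneg _
    have : (0 : ℝ) ≤ l := Nat.cast_nonneg _
    nlinarith
  refine (Finset.sum_le_sum h1).trans ?_
  rw [Finset.sum_const, Finset.card_univ, Fintype.card_fin, nsmul_eq_mul]
  push_cast
  exact le_rfl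

/-- the final inequality -/
theorem final_bound (X : ℝ) (Ω V : ℕ) (hX : 2 ≤ X) :
    ((Ω + 1) * (((V : ℝ) + 1) * ((Nat.log 2 ⌊X⌋₊ : ℕ) + 1)) ^ Ω) ^ 2 *
      (((Nat.log 2 ⌊X⌋₊ : ℕ) + 1 : ℝ) ^ Ω * (2 * (V : ℝ) + 2) ^ Ω) ≤ Lo 8 X Ω V := by
  set l := Nat.log 2 ⌊X⌋₊ with hl
  have hX0 : 0 < X := by linarith
  have hlog : (0.6931 : ℝ) ≤ Real.log X := by
    have h1 : Real.log 2 ≤ Real.log X := Real.log_le_log (by norm_num) hX
    have := Real.log_two_gt_d9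
    linarith
  have hM : (l : ℝ) + 1 ≤ 4 * Real.log X + 4 := by
    have h1 : (2 : ℝ) ^ l ≤ X := by
      have h2 : 2 ^ l ≤ ⌊X⌋₊ := Nat.pow_log_le_self 2 (by
        have : 2 ≤ ⌊X⌋₊ := Nat.le_floor (by exact_mod_cast hX)
        omega)
      calc (2 : ℝ) ^ l = ((2 ^ l : ℕ) : ℝ) := by push_cast; rfl
        _ ≤ (⌊X⌋₊ : ℝ) := by exact_mod_cast h2
        _ ≤ X := Nat.floor_le hX0.le
    have h3 : (l : ℝ) * Real.log 2 ≤ Real.log X := by
      rw [← Real.log_pow]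
      exact Real.log_le_log (by positivity) h1
    have h4 := Real.log_two_gt_d9
    have h5 : (0 : ℝ) ≤ l := Nat.cast_nonneg _
    nlinarith
  set M := 4 * Real.log X + 4 with hMdef
  set A := (V : ℝ) + 2 with hA
  have hV : (0 : ℝ) ≤ V := Nat.cast_nonneg _
  have hl0 : (0 : ℝ) ≤ l := Nat.cast_nonneg _
  have hM4 : 4 ≤ M := by rw [hMdef]; linarith
  have hA2 : 2 ≤ A := by rw [hA]; linarith
  have hΩ : (Ω : ℝ) + 1 ≤ 2 ^ Ω := by
    have : Ω + 1 ≤ 2 ^ Ω := Nat.lt_two_pow_self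
    exact_mod_cast this
  have h8 : (8 : ℝ) ≤ A * M := by nlinarith
  have h1 : ((Ω + 1) * (((V : ℝ) + 1) * ((l : ℝ) + 1)) ^ Ω) ≤ 2 ^ Ω * (A * M) ^ Ω := by
    have h2 : (((V : ℝ) + 1) * ((l : ℝ) + 1)) ^ Ω ≤ (A * M) ^ Ω := by
      refine pow_le_pow_left₀ (by positivity) ?_ _
      exact mul_le_mul (by rw [hA]; linarith) hM (by positivity) (by linarith)
    exact mul_le_mul hΩ h2 (by positivity) (by positivity)
  have h2 : ((l : ℝ) + 1) ^ Ω * (2 * (V : ℝ) + 2) ^ Ω ≤ 2 ^ Ω * (A * M) ^ Ω := by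
    rw [← mul_pow, ← mul_pow]
    refine pow_le_pow_left₀ (by positivity) ?_ _
    have : (l + 1 : ℝ) * (2 * V + 2) ≤ M * (2 * A) :=
      mul_le_mul hM (by rw [hA]; linarith) (by positivity) (by linarith)
    linarith
  have h3 : (2 : ℝ) ^ Ω * 2 ^ Ω * 2 ^ Ω = 8 ^ Ω := by
    rw [← mul_pow, ← mul_pow]; norm_num
  calc ((Ω + 1) * (((V : ℝ) + 1) * ((l : ℝ) + 1)) ^ Ω) ^ 2 *
        (((l : ℝ) + 1) ^ Ω * (2 * (V : ℝ) + 2) ^ Ω)
      ≤ (2 ^ Ω * (A * M) ^ Ω) ^ 2 * (2 ^ Ω * (A * M) ^ Ω) :=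
        mul_le_mul (pow_le_pow_left₀ (by positivity) h1 _) h2 (by positivity) (by positivity)
    _ = (2 ^ Ω * 2 ^ Ω * 2 ^ Ω) * ((A * M) ^ Ω) ^ 3 := by ring
    _ = 8 ^ Ω * (A * M) ^ (Ω * 3) := by rw [h3, ← pow_mul]
    _ ≤ (A * M) ^ Ω * (A * M) ^ (Ω * 3) :=
        mul_le_mul_of_nonneg_right (pow_le_pow_left₀ (by norm_num) h8 _) (by positivity)
    _ = (A * M) ^ (Ω + Ω * 3) := by rw [← pow_add]
    _ ≤ (A * M) ^ (8 * (Ω + 1)) := pow_le_pow_right₀ (by linarith) (by omega)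
    _ = Lo 8 X Ω V := rfl

theorem pf_GEM (hENM : T_ENM) : T_GEM := by
  classical
  intro X Ω V g _ u hX hg hΩ
  set l := Nat.log 2 ⌊X⌋₊ with hl
  have hX0 : 0 < X := by linarith
  set U : Finset ℕ := (Nf X Ω V).filter fun n => IsUnit (n : ZMod g) with hU
  have hNf : ∀ n ∈ Nf X Ω V, n ≠ 0 ∧ (pd n.primeFactors : ℝ) ≤ X := by
    intro n hn
    obtain ⟨h0, h1, -, -⟩ := Finset.mem_filter.1 hn
    exact ⟨by have := (Finset.mem_Icc.1 h0).1; omega, h1⟩
  have hpd : ∀ n : ℕ, (0 : ℝ) < pd n.primeFactors := by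
    intro n
    have : 0 < pd n.primeFactors := Finset.prod_pos fun p hp =>
      (Nat.prime_of_mem_primeFactors hp).pos
    exact_mod_cast this
  set w : ℕ → ℝ := fun n => 1 / Real.sqrt (pd n.primeFactors) with hw
  have hw0 : ∀ n, 0 ≤ w n := fun n => by rw [hw]; positivity
  -- patterns
  have hpat : ∀ n : ℕ, ∃ (σ : Pt Ω V l) (p : Fin σ.1 → ℕ), n ∈ U →
      (∀ j, 1 ≤ (σ.2.1 j : ℕ) ∧ 1 ≤ (σ.2.2 j : ℕ) ∧ p j ∈ Dy g (σ.2.2 j)) ∧
      n = ∏ j, p j ^ (σ.2.1 j : ℕ) ∧ 2 ^ (∑ j, (σ.2.2 j : ℕ)) ≤ pd n.primeFactors := by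
    intro n
    by_cases hn : n ∈ U
    · obtain ⟨hn1, hn2⟩ := Finset.mem_filter.1 hn
      obtain ⟨k, hk, v, s, p, h1, h2, h3⟩ := exists_pattern X Ω V g n hn1
        ((ZMod.isUnit_iff_coprime n g).1 hn2)
      refine ⟨⟨⟨k, Nat.lt_succ_iff.2 hk⟩, fun j => ⟨v j, Nat.lt_succ_iff.2 (h1 j).2.1⟩,
        fun j => ⟨s j, Nat.lt_succ_iff.2 (h1 j).2.2.2.1⟩⟩, p, fun _ => ⟨fun j => ?_, h2, h3⟩⟩
      exact ⟨(h1 j).1, (h1 j).2.2.1, (h1 j).2.2.2.2⟩
    · exact ⟨⟨⟨0, by omega⟩, fun j => j.elim0, fun j => j.elim0⟩, fun j => j.elim0,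
        fun h => absurd h hn⟩
  choose σ p hσ using hpat
  -- the weights
  set W : ZMod g → ℝ := fun z => ∑ n ∈ U.filter (fun n : ℕ => (n : ZMod g) = z), w n with hW
  have hE : ∀ τ : Pt Ω V l, ∑ z : ZMod g, (∑ n ∈ U.filter
      (fun n : ℕ => (n : ZMod g) = z ∧ σ n = τ), w n) ^ 2 ≤
      ((l : ℝ) + 1) ^ Ω * (2 * (V : ℝ) + 2) ^ Ω := by
    intro τ
    by_cases hne : ∃ n₀ ∈ U, σ n₀ = τ
    swap
    · have h0 : ∀ z : ZMod g, (∑ n ∈ U.filter
          (fun n : ℕ => (n : ZMod g) = z ∧ σ n = τ), w n) = 0 := by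
        intro z
        rw [Finset.filter_eq_empty_iff.2, Finset.sum_empty]
        rintro n hn ⟨-, h⟩
        exact hne ⟨n, hn, h⟩
      simp only [h0]
      rw [Finset.sum_eq_zero (fun _ _ => by norm_num)]
      positivity
    obtain ⟨n₀, hn₀, hτ⟩ := hne
    obtain ⟨hσ1, hσ2, hσ3⟩ := hσ n₀ hn₀
    rw [hτ] at hσ3
    set S := ∑ j, (τ.2.2 j : ℕ) with hS
    have hSX : (2 : ℝ) ^ S ≤ X := by
      have h1 := (hNf n₀ (Finset.mem_filter.1 hn₀).1).2
      refine le_trans ?_ h1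
      exact_mod_cast hσ3
    have hvs : ∀ j, 1 ≤ (τ.2.1 j : ℕ) ∧ (τ.2.1 j : ℕ) ≤ V ∧ 1 ≤ (τ.2.2 j : ℕ) := by
      subst hτ
      exact fun j => ⟨(hσ1 j).1, Nat.lt_succ_iff.1 ((σ n₀).2.1 j).2, (hσ1 j).2.1⟩
    have hSg : 2 ^ (3 * S + 1) ≤ g := by
      have h1 : (2 : ℝ) ^ (3 * S + 1) ≤ g := by
        refine le_trans ?_ hg
        have h2 : (2 : ℝ) ^ (3 * S + 1) = 2 * (2 ^ S) ^ 3 := by
          rw [pow_succ, ← pow_mul, mul_comm S 3]; ring
        rw [h2]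
        have := pow_le_pow_left₀ (by positivity) hSX 3
        linarith
      exact_mod_cast h1
    have hen := hENM τ.1 V S g (fun j => τ.2.1 j) (fun j => τ.2.2 j) hvs hS hSg
    set B := Fintype.piFinset fun j => Dy g (τ.2.2 j : ℕ) with hB
    rw [← sum_sq B (fun q : Fin τ.1 → ℕ => ∏ j, ((q j : ℕ) : ZMod g) ^ (τ.2.1 j : ℕ))] at hen
    have h2S : (0 : ℝ) < 2 ^ S := by positivity
    have hz : ∀ z : ZMod g, (∑ n ∈ U.filter (fun n : ℕ => (n : ZMod g) = z ∧ σ n = τ), w n) ^ 2 ≤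
        1 / 2 ^ S * (((B.filter fun q => ∏ j, ((q j : ℕ) : ZMod g) ^ (τ.2.1 j : ℕ) = z).card :
          ℝ)) ^ 2 := by
      intro z
      have h1 : ∀ n ∈ U.filter (fun n : ℕ => (n : ZMod g) = z ∧ σ n = τ),
          w n ≤ 1 / Real.sqrt (2 ^ S) := by
        intro n hn
        obtain ⟨hn1, -, hn2⟩ := Finset.mem_filter.1 hn
        have h3 := (hσ n hn1).2.2
        rw [hn2] at h3
        refine one_div_le_one_div_of_le (Real.sqrt_pos.2 h2S) (Real.sqrt_le_sqrt ?_)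
        exact_mod_cast h3
      have h2 : ((U.filter (fun n : ℕ => (n : ZMod g) = z ∧ σ n = τ)).card : ℝ) ≤
          ((B.filter fun q => ∏ j, ((q j : ℕ) : ZMod g) ^ (τ.2.1 j : ℕ) = z).card : ℝ) := by
        have h3 : ∀ n : ℕ, ∃ q : Fin τ.1 → ℕ,
            n ∈ U.filter (fun n : ℕ => (n : ZMod g) = z ∧ σ n = τ) →
            q ∈ B ∧ n = ∏ j, q j ^ (τ.2.1 j : ℕ) := by
          intro n
          by_cases hn : n ∈ U.filter (fun n : ℕ => (n : ZMod g) = z ∧ σ n = τ)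
          · obtain ⟨hn1, -, hn2⟩ := Finset.mem_filter.1 hn
            obtain ⟨h4, h5, -⟩ := hσ n hn1
            subst hn2
            exact ⟨p n, fun _ => ⟨Fintype.mem_piFinset.2 fun j => (h4 j).2.2, h5⟩⟩
          · exact ⟨fun _ => 0, fun h => absurd h hn⟩
        choose q hq using h3
        refine Nat.cast_le.2 (Finset.card_le_card_of_injOn q (fun n hn => by
          have hn' := Finset.mem_coe.1 hn
          obtain ⟨h4, h5⟩ := hq n hn'
          refine Finset.mem_coe.2 (Finset.mem_filter.2 ⟨h4, ?_⟩)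
          have h6 := (Finset.mem_filter.1 hn').2.1
          have h7 : ((n : ℕ) : ZMod g) = ∏ j, ((q n j : ℕ) : ZMod g) ^ (τ.2.1 j : ℕ) := by
            have h8 : ((n : ℕ) : ZMod g) = ((∏ j, q n j ^ (τ.2.1 j : ℕ) : ℕ) : ZMod g) :=
              congrArg _ h5
            rw [h8, Nat.cast_prod]
            simp only [Nat.cast_pow]
          exact h7.symm.trans h6) (fun n hn m hm h => by
          rw [(hq n (Finset.mem_coe.1 hn)).2, (hq m (Finset.mem_coe.1 hm)).2, h]))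
      have h3 : (∑ n ∈ U.filter (fun n : ℕ => (n : ZMod g) = z ∧ σ n = τ), w n) ≤
          ((B.filter fun q => ∏ j, ((q j : ℕ) : ZMod g) ^ (τ.2.1 j : ℕ) = z).card : ℝ) *
            (1 / Real.sqrt (2 ^ S)) := by
        refine (Finset.sum_le_sum h1).trans ?_
        rw [Finset.sum_const, nsmul_eq_mul]
        exact mul_le_mul_of_nonneg_right h2 (by positivity)
      have h4 := pow_le_pow_left₀ (Finset.sum_nonneg fun n _ => hw0 n) h3 2
      refine h4.trans (le_of_eq ?_)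
      rw [mul_pow, div_pow, one_pow, Real.sq_sqrt h2S.le]
      ring
    refine (Finset.sum_le_sum fun z _ => hz z).trans ?_
    rw [← Finset.mul_sum]
    have h5 : (1 : ℝ) / 2 ^ S * (2 ^ S * ((S : ℝ) + 1) ^ (τ.1 : ℕ) *
        (2 * (V : ℝ) + 2) ^ g.primeFactors.card) ≤
        ((l : ℝ) + 1) ^ Ω * (2 * (V : ℝ) + 2) ^ Ω := by
      have h6 : (1 : ℝ) / 2 ^ S * (2 ^ S * ((S : ℝ) + 1) ^ (τ.1 : ℕ) *
          (2 * (V : ℝ) + 2) ^ g.primeFactors.card) =
          ((S : ℝ) + 1) ^ (τ.1 : ℕ) * (2 * (V : ℝ) + 2) ^ g.primeFactors.card := by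
        field_simp
      rw [h6]
      have hSl : S ≤ l := by
        rw [hl]
        refine Nat.le_log_of_pow_le one_lt_two ?_
        refine Nat.le_floor ?_
        exact_mod_cast hSX
      have h7 : ((S : ℝ) + 1) ^ (τ.1 : ℕ) ≤ ((l : ℝ) + 1) ^ Ω := by
        have h8 : (S : ℝ) ≤ l := by exact_mod_cast hSl
        exact (pow_le_pow_left₀ (by positivity) (by linarith) _).trans
          (pow_le_pow_right₀ (by have : (0 : ℝ) ≤ l := Nat.cast_nonneg _; linarith)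
            (Nat.lt_succ_iff.1 τ.1.2))
      have h8 : (2 * (V : ℝ) + 2) ^ g.primeFactors.card ≤ (2 * (V : ℝ) + 2) ^ Ω :=
        pow_le_pow_right₀ (by have : (0 : ℝ) ≤ V := Nat.cast_nonneg _; linarith) hΩ
      exact mul_le_mul h7 h8 (by positivity) (by positivity)
    exact (mul_le_mul_of_nonneg_left hen (by positivity)).trans h5
  -- the sum of the squares of `W`
  have hWsq : ∑ z, W z ^ 2 ≤ (Fintype.card (Pt Ω V l) : ℝ) ^ 2 *
      (((l : ℝ) + 1) ^ Ω * (2 * (V : ℝ) + 2) ^ Ω) := by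
    have h1 : ∀ z, W z = ∑ τ : Pt Ω V l, ∑ n ∈ U.filter
        (fun n : ℕ => (n : ZMod g) = z ∧ σ n = τ), w n := by
      intro z
      rw [hW]
      simp only
      rw [← Finset.sum_fiberwise (s := U.filter (fun n : ℕ => (n : ZMod g) = z)) (g := σ)]
      refine Finset.sum_congr rfl fun τ _ => ?_
      rw [Finset.filter_filter]
    have h2 : ∀ z, W z ^ 2 ≤ (Fintype.card (Pt Ω V l) : ℝ) * ∑ τ : Pt Ω V l, (∑ n ∈ U.filter
        (fun n : ℕ => (n : ZMod g) = z ∧ σ n = τ), w n) ^ 2 := by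
      intro z
      rw [h1]
      exact sq_sum_le_card_mul_sum_sq
    calc ∑ z, W z ^ 2 ≤ ∑ z, (Fintype.card (Pt Ω V l) : ℝ) * ∑ τ : Pt Ω V l, (∑ n ∈ U.filter
        (fun n : ℕ => (n : ZMod g) = z ∧ σ n = τ), w n) ^ 2 := Finset.sum_le_sum fun z _ => h2 z
      _ = (Fintype.card (Pt Ω V l) : ℝ) * ∑ τ : Pt Ω V l, ∑ z, (∑ n ∈ U.filter
        (fun n : ℕ => (n : ZMod g) = z ∧ σ n = τ), w n) ^ 2 := by
          rw [← Finset.mul_sum, Finset.sum_comm]
      _ ≤ (Fintype.card (Pt Ω V l) : ℝ) * ∑ _τ : Pt Ω V l,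
        (((l : ℝ) + 1) ^ Ω * (2 * (V : ℝ) + 2) ^ Ω) :=
          mul_le_mul_of_nonneg_left (Finset.sum_le_sum fun τ _ => hE τ) (Nat.cast_nonneg _)
      _ = _ := by
          rw [Finset.sum_const, Finset.card_univ, nsmul_eq_mul]
          ring
  -- the sum over pairs
  have hT : ∑ t ∈ ((Nf X Ω V) ×ˢ (Nf X Ω V)).filter
      (fun t => (t.1 : ZMod g) = u * (t.2 : ZMod g) ∧ IsUnit (t.1 : ZMod g)),
      1 / Real.sqrt ((pd t.1.primeFactors : ℝ) * pd t.2.primeFactors) ≤ ∑ z, W z ^ 2 := by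
    have h1 : ∑ t ∈ ((Nf X Ω V) ×ˢ (Nf X Ω V)).filter
        (fun t => (t.1 : ZMod g) = u * (t.2 : ZMod g) ∧ IsUnit (t.1 : ZMod g)),
        1 / Real.sqrt ((pd t.1.primeFactors : ℝ) * pd t.2.primeFactors) ≤
        ∑ z : ZMod g, W (u * z) * W z := by
      have h2 : ∀ z : ZMod g, W (u * z) * W z =
          ∑ t ∈ (U ×ˢ U).filter (fun t => (t.1 : ZMod g) = u * z ∧ (t.2 : ZMod g) = z),
            w t.1 * w t.2 := by
        intro z
        rw [hW]
        simp only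
        rw [Finset.sum_mul_sum, ← Finset.sum_product']
        refine Finset.sum_congr ?_ fun _ _ => rfl
        ext t
        simp only [Finset.mem_product, Finset.mem_filter]
        tauto
      have h3 : ∑ z : ZMod g, W (u * z) * W z =
          ∑ t ∈ (U ×ˢ U).filter (fun t => (t.1 : ZMod g) = u * (t.2 : ZMod g)),
            w t.1 * w t.2 := by
        rw [← Finset.sum_fiberwise (s := (U ×ˢ U).filter
          (fun t => (t.1 : ZMod g) = u * (t.2 : ZMod g))) (g := fun t => (t.2 : ZMod g))]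
        refine Finset.sum_congr rfl fun z _ => ?_
        rw [h2 z, Finset.filter_filter]
        refine Finset.sum_congr ?_ fun _ _ => rfl
        ext t
        simp only [Finset.mem_filter]
        constructor
        · rintro ⟨h, h4, h5⟩
          exact ⟨h, by rw [h4, h5], h5⟩
        · rintro ⟨h, h4, h5⟩
          exact ⟨h, by rw [h4, h5], h5⟩
      rw [h3]
      have h4 : ∀ t ∈ ((Nf X Ω V) ×ˢ (Nf X Ω V)).filter
          (fun t => (t.1 : ZMod g) = u * (t.2 : ZMod g) ∧ IsUnit (t.1 : ZMod g)),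
          1 / Real.sqrt ((pd t.1.primeFactors : ℝ) * pd t.2.primeFactors) = w t.1 * w t.2 := by
        intro t _
        rw [Real.sqrt_mul (hpd _).le, hw]
        simp only
        rw [one_div_mul_one_div]
      rw [Finset.sum_congr rfl h4]
      refine Finset.sum_le_sum_of_subset_of_nonneg ?_ fun t _ _ => mul_nonneg (hw0 _) (hw0 _)
      intro t ht
      obtain ⟨h5, h6, h7⟩ := Finset.mem_filter.1 ht
      obtain ⟨h8, h9⟩ := Finset.mem_product.1 h5
      refine Finset.mem_filter.2 ⟨Finset.mem_product.2 ⟨Finset.mem_filter.2 ⟨h8, h7⟩,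
        Finset.mem_filter.2 ⟨h9, ?_⟩⟩, h6⟩
      rw [h6] at h7
      exact isUnit_of_mul_isUnit_right h7
    refine h1.trans ?_
    have h2 : ∑ z : ZMod g, W (u * z) ^ 2 = ∑ z, W z ^ 2 :=
      Fintype.sum_equiv (Units.mulLeft u) _ _ fun z => rfl
    have h3 : ∑ z : ZMod g, W (u * z) * W z ≤ ∑ z : ZMod g, (W (u * z) ^ 2 + W z ^ 2) / 2 := by
      refine Finset.sum_le_sum fun z _ => ?_
      nlinarith [sq_nonneg (W (u * z) - W z)]
    refine h3.trans (le_of_eq ?_)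
    rw [← Finset.sum_div, Finset.sum_add_distrib, h2]
    ring
  refine hT.trans (hWsq.trans ?_)
  refine le_trans ?_ (final_bound X Ω V hX)
  refine mul_le_mul_of_nonneg_right ?_ (by positivity)
  exact pow_le_pow_left₀ (Nat.cast_nonneg _) (card_Pt Ω V l) 2

end Pool.Agent.H46.AB
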